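import Pool.Agent.VMX.StmtsC

/-!
# VMX squad, row BTV: the bottom ray on the whole space
-/

set_option autoImplicit false

open Matrix Filter Topology

namespace Pool.Agent.VMX.H64

open Pool.Agent.PFS Pool.Agent.PFJ Pool.Agent.NBT

theorem sum_eq {n K : ℕ} (w : Fin K → V n) (i : Fin K) : ∑ j, w j = w i + fS w {i}ᶜ := by
  unfold fS
  have := Finset.sum_add_sum_compl ({i} : Finset (Fin K)) w
  rw [Finset.sum_singleton] at this
  exact this.symm

theorem btv (atd : AtdStmt) (atf : AtfStmt) (phe : KT3.PheStmt) (uni : KT3.UniStmt) :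
    BtvStmt := by
  intro n k C Γ hk a i1 hi1 ha
  have hcc : CC C Γ := hk.toCC
  have hc : PCone C := hcc.toPCone
  obtain ⟨κ, hκ, hU⟩ := uni n C Γ (k + 1) hk (1 / 800) (by norm_num)
  have hk0 : (0 : ℝ) ≤ k := Nat.cast_nonneg k
  obtain ⟨A, hA⟩ : ∃ A : ℝ, A = ((k : ℝ) + 1) * (κ + 1) := ⟨_, rfl⟩
  have hA1 : 1 ≤ A := by rw [hA]; nlinarith
  have hAk : (k : ℝ) ≤ A := by rw [hA]; nlinarith
  have hAκ : κ * k ≤ A := by rw [hA]; nlinarith
  obtain ⟨ε₀, hε⟩ : ∃ ε₀ : ℝ, ε₀ = 1 / (1600 * A) := ⟨_, rfl⟩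
  have hε0 : 0 < ε₀ := by rw [hε]; positivity
  have hAε : A * ε₀ = 1 / 1600 := by
    rw [hε]; field_simp
  have hε1 : ε₀ ≤ 1 / 1600 := by nlinarith
  have hεk : (k : ℝ) * ε₀ ≤ 1 / 1600 := by nlinarith
  have hεκ : κ * k * ε₀ ≤ 1 / 1600 := by nlinarith
  have hev2 : ∀ᶠ σ : ℝ in atTop, ∀ i, i ≠ i1 → Real.exp (-((a i - a i1) * σ)) ≤ ε₀ / 2 := by
    rw [eventually_all]
    intro i
    by_cases h1 : i = i1
    · exact Eventually.of_forall fun σ h => absurd h1 h
    have hpos : 0 < a i - a i1 := sub_pos.mpr (ha i h1)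
    have h2 : Tendsto (fun σ : ℝ => (a i - a i1) * σ) atTop atTop :=
      tendsto_id.const_mul_atTop hpos
    have h3 := Real.tendsto_exp_neg_atTop_nhds_zero.comp h2
    filter_upwards [h3.eventually (ge_mem_nhds (half_pos hε0))] with σ hσ _ using hσ
  obtain ⟨S₀, hS⟩ := eventually_atTop.mp hev2
  refine ⟨ε₀, S₀, hε0, ?_⟩
  intro ε σ w z g s lam hεp hle hσ hFG
  have hexp := hS σ hσ
  have hw := hFG.pes
  obtain ⟨φ, hφ⟩ := phe n C Γ (k + 1) hk w hw i1
  have hwc : ∀ i, w i ∈ closure C := fun i => hw.1.cl i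
  obtain ⟨f, hf⟩ : ∃ f : V n, f = ∑ j, w j := ⟨_, rfl⟩
  obtain ⟨f', hf'⟩ : ∃ f' : V n, f' = fS w ({0}ᶜ : Finset (Fin (k + 1))) := ⟨_, rfl⟩
  obtain ⟨h, hh⟩ : ∃ h : V n, h = fS w ({i1}ᶜ : Finset (Fin (k + 1))) := ⟨_, rfl⟩
  have hff' : f = w 0 + f' := by rw [hf, hf']; exact sum_eq w 0
  have hfh : f = w i1 + h := by rw [hf, hh]; exact sum_eq w i1
  have hfC : f ∈ C := by rw [hf]; exact hw.1.sum_mem
  have hfc : f ∈ closure C := subset_closure hfC
  have hf'c : f' ∈ closure C := by rw [hf']; exact hc.cl_sum fun i _ => hwc i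
  have hhc : h ∈ closure C := by rw [hh]; exact hc.cl_sum fun i _ => hwc i
  have hi1m : i1 ∈ ({0}ᶜ : Finset (Fin (k + 1))) := by simpa using hi1
  have hwf : ∀ i, f - w i ∈ closure C := by
    intro i
    have e1 : f - w i = fS w {i}ᶜ := by
      rw [hf, sum_eq w i]; abel
    rw [e1]; exact hc.cl_sum fun i _ => hwc i
  have hnr : ∀ i, i ≠ 0 → ε₀ • f' - (z i - w i) ∈ closure C ∧
      ε₀ • f' + (z i - w i) ∈ closure C := by
    intro i hi
    obtain ⟨_, h1, h2⟩ := hFG.nr i hi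
    rw [← hf'] at h1 h2
    have h3 : (ε₀ - ε) • f' ∈ closure C := hc.cl_smul hf'c (by linarith)
    constructor
    · have := hc.cl_add h1 h3
      have e : ε • f' - (z i - w i) + (ε₀ - ε) • f' = ε₀ • f' - (z i - w i) := by module
      rwa [e] at this
    · have := hc.cl_add h2 h3
      have e : ε • f' + (z i - w i) + (ε₀ - ε) • f' = ε₀ • f' + (z i - w i) := by module
      rwa [e] at this
  -- the map
  obtain ⟨E, hE⟩ : ∃ E : ℝ, E = Real.exp (a i1 * σ) := ⟨_, rfl⟩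
  have hE0 : 0 < E := by rw [hE]; exact Real.exp_pos _
  have hs := hFG.s0
  have hlam : 0 < lam := by linarith [hFG.l1]
  obtain ⟨H, hH⟩ : ∃ H : V n →ₗ[ℝ] V n, H = sA (E / s) g⁻¹ := ⟨_, rfl⟩
  have hHx : ∀ x, H x = (E / s) • act g⁻¹ x := by intro x; rw [hH]; rfl
  have hHpow : ∀ (m : ℕ) (x : V n), (H ^ m) x = (E / s) ^ m • act (g⁻¹ ^ m) x := by
    intro m x
    rw [hH]
    exact sA_pow (E / s) g⁻¹ m x
  have hHc : ∀ x ∈ closure C, H x ∈ closure C := by
    intro x hx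
    rw [hHx]
    exact (hcc.sact_cl_iff (Γ.inv_mem hFG.gm) (by positivity)).mpr hx
  have hHB : ∀ x ∈ BI C w {0}ᶜ, H x ∈ BI C w {0}ᶜ := by
    intro x hx
    rw [hHx]
    refine Submodule.smul_mem _ _ ?_
    have h1 : x ∈ img g (BI C w {0}ᶜ) := by rw [hFG.inv]; exact hx
    obtain ⟨y, hy, rfl⟩ := mem_img.mp h1
    rw [CC.act_inv_act]; exact hy
  have hHz : ∀ i, i ≠ 0 → H (z i) = Real.exp (-((a i - a i1) * σ)) • w i := by
    intro i hi
    have h1 := hFG.ei i hi
    have h2 : z i = (Real.exp (a i * σ))⁻¹ • s • act g (w i) := by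
      rw [h1, smul_smul, inv_mul_cancel₀ (Real.exp_pos _).ne', one_smul]
    rw [h2, hHx, CC.act_smul, CC.act_smul, CC.act_inv_act, smul_smul, smul_smul]
    congr 1
    have h3 : Real.exp (-((a i - a i1) * σ)) = E * (Real.exp (a i * σ))⁻¹ := by
      rw [hE, ← Real.exp_neg, ← Real.exp_add]; congr 1; ring
    rw [h3]
    field_simp
  have hH0 : H (w 0) = (Real.exp (-((a 0 - a i1) * σ)) * lam⁻¹) • w 0 := by
    have h1 := hFG.e0
    have hx0 : Real.exp (a 0 * σ) * lam ≠ 0 := (mul_pos (Real.exp_pos _) hlam).ne'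
    have h2 : w 0 = (Real.exp (a 0 * σ) * lam)⁻¹ • s • act g (w 0) := by
      rw [h1, smul_smul, inv_mul_cancel₀ hx0, one_smul]
    have h4 : H (w 0) = ((E / s) * ((Real.exp (a 0 * σ) * lam)⁻¹ * s)) • w 0 := by
      rw [hHx]
      conv_lhs => rw [h2]
      rw [CC.act_smul, CC.act_smul, CC.act_inv_act, smul_smul, smul_smul, mul_assoc]
    rw [h4]
    congr 1
    have h3 : Real.exp (-((a 0 - a i1) * σ)) = E * (Real.exp (a 0 * σ))⁻¹ := by
      rw [hE, ← Real.exp_neg, ← Real.exp_add]; congr 1; ring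
    rw [h3]
    field_simp
  have hc0 : Real.exp (-((a 0 - a i1) * σ)) * lam⁻¹ ≤ ε₀ := by
    have h1 := hexp 0 (Ne.symm hi1)
    have h2 : lam⁻¹ ≤ 2 := by
      rw [inv_le_comm₀ hlam (by norm_num)]
      linarith [hFG.l1]
    have h3 : 0 < lam⁻¹ := inv_pos.mpr hlam
    calc Real.exp (-((a 0 - a i1) * σ)) * lam⁻¹ ≤ (ε₀ / 2) * 2 :=
          mul_le_mul h1 h2 h3.le (by positivity)
      _ = ε₀ := by ring
  have hHz1 : H (z i1) = w i1 := by
    rw [hHz i1 hi1, sub_self, zero_mul, neg_zero, Real.exp_zero, one_smul]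
  have hcard : ∀ i : Fin (k + 1), (({i}ᶜ : Finset (Fin (k + 1))).card : ℝ) = k := by
    intro i
    rw [Finset.card_compl, Fintype.card_fin, Finset.card_singleton, Nat.add_sub_cancel]
  have hne : ∀ j, ∀ i ∈ ({j}ᶜ : Finset (Fin (k + 1))), i ≠ j := by
    intro j i hi; simpa using hi
  obtain ⟨fz, hfz⟩ : ∃ fz : V n, fz = ∑ i ∈ ({0}ᶜ : Finset (Fin (k + 1))), z i := ⟨_, rfl⟩
  have B1 : (2 : ℝ) • (w 0 + fz) - f ∈ closure C := by
    have h1 : ∑ i ∈ ({0}ᶜ : Finset (Fin (k + 1))), (ε₀ • f' + (z i - w i)) ∈ closure C :=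
      hc.cl_sum fun i hi => (hnr i (hne 0 i hi)).2
    have e1 : ∑ i ∈ ({0}ᶜ : Finset (Fin (k + 1))), (ε₀ • f' + (z i - w i)) =
        (k * ε₀) • f' + (fz - f') := by
      rw [Finset.sum_add_distrib, Finset.sum_sub_distrib, Finset.sum_const, hfz, hf', fS,
        ← Nat.cast_smul_eq_nsmul ℝ, hcard, smul_smul]
    rw [e1] at h1
    have h2 := hc.cl_smul h1 (t := 2) (by norm_num)
    have h3 : (1 - 2 * (k * ε₀)) • f' ∈ closure C := hc.cl_smul hf'c (by linarith)
    have := hc.cl_add (hc.cl_add h2 h3) (hwc 0)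
    rw [hff']
    have e : (2 : ℝ) • ((k * ε₀) • f' + (fz - f')) + (1 - 2 * (k * ε₀)) • f' + w 0 =
        (2 : ℝ) • (w 0 + fz) - (w 0 + f') := by module
    rwa [e] at this
  have B2 : f - H (w 0 + fz) ∈ closure C := by
    have e1 : f - H (w 0 + fz) = (1 - Real.exp (-((a 0 - a i1) * σ)) * lam⁻¹) • w 0 +
        ∑ i ∈ ({0}ᶜ : Finset (Fin (k + 1))), (1 - Real.exp (-((a i - a i1) * σ))) • w i := by
      have e2 : ∑ i ∈ ({0}ᶜ : Finset (Fin (k + 1))),
          (1 - Real.exp (-((a i - a i1) * σ))) • w i = f' - H fz := by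
        rw [hfz, map_sum, hf', fS, ← Finset.sum_sub_distrib]
        refine Finset.sum_congr rfl fun i hi => ?_
        rw [hHz i (hne 0 i hi)]; module
      rw [e2, map_add, hH0, hff']
      module
    rw [e1]
    refine hc.cl_add (hc.cl_smul (hwc 0) (by linarith)) ?_
    refine hc.cl_sum fun i hi => hc.cl_smul (hwc i) ?_
    by_cases h1 : i = i1
    · rw [h1, sub_self, zero_mul, neg_zero, Real.exp_zero, sub_self]
    · have := hexp i h1
      linarith
  have B3 : (2 : ℝ) • f - H f ∈ closure C := by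
    have h1 := hHc _ B1
    rw [map_sub, map_smul] at h1
    have h2 := hc.cl_smul B2 (t := 2) (by norm_num)
    have := hc.cl_add h1 h2
    have e : (2 : ℝ) • H (w 0 + fz) - H f + (2 : ℝ) • (f - H (w 0 + fz)) =
        (2 : ℝ) • f - H f := by module
    rwa [e] at this
  have B3' : (2 : ℝ) • f - H f' ∈ closure C := by
    have h1 := hc.cl_add B3 (hHc _ (hwc 0))
    have e : (2 : ℝ) • f - H f + H (w 0) = (2 : ℝ) • f - H f' := by
      rw [hff', map_add]
      module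
    rwa [e] at h1
  have B4 : ∀ i, i ≠ i1 → (3 * ε₀) • f - H (w i) ∈ closure C := by
    intro i hi'
    by_cases hi : i = 0
    · rw [hi, hH0]
      have h1 : (3 * ε₀ - Real.exp (-((a 0 - a i1) * σ)) * lam⁻¹) • w 0 ∈ closure C :=
        hc.cl_smul (hwc 0) (by linarith)
      have h2 := hc.cl_smul hf'c (t := 3 * ε₀) (by linarith)
      have := hc.cl_add h1 h2
      rw [hff']
      have e : (3 * ε₀ - Real.exp (-((a 0 - a i1) * σ)) * lam⁻¹) • w 0 + (3 * ε₀) • f' =
          (3 * ε₀) • (w 0 + f') - (Real.exp (-((a 0 - a i1) * σ)) * lam⁻¹) • w 0 := by module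
      rwa [e] at this
    · have h1 := hHc _ (hnr i hi).2
      rw [map_add, map_sub, map_smul, hHz i hi] at h1
      have h2 := hc.cl_smul B3' hε0.le
      have h3 : (ε₀ - Real.exp (-((a i - a i1) * σ))) • w i ∈ closure C :=
        hc.cl_smul (hwc i) (by linarith [hexp i hi'])
      have h4 := hc.cl_smul (hwf i) hε0.le
      have := hc.cl_add (hc.cl_add (hc.cl_add h1 h2) h3) h4
      have e : ε₀ • H f' + (Real.exp (-((a i - a i1) * σ)) • w i - H (w i)) +
          ε₀ • ((2 : ℝ) • f - H f') + (ε₀ - Real.exp (-((a i - a i1) * σ))) • w i +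
          ε₀ • (f - w i) = (3 * ε₀) • f - H (w i) := by module
      rwa [e] at this
  have B5 : (k * (3 * ε₀)) • f - H h ∈ closure C := by
    have h1 : ∑ i ∈ ({i1}ᶜ : Finset (Fin (k + 1))), ((3 * ε₀) • f - H (w i)) ∈
        closure C := hc.cl_sum fun i hi => B4 i (hne i1 i hi)
    have e1 : ∑ i ∈ ({i1}ᶜ : Finset (Fin (k + 1))), ((3 * ε₀) • f - H (w i)) =
        (k * (3 * ε₀)) • f - H h := by
      rw [Finset.sum_sub_distrib, Finset.sum_const, hh, fS, map_sum,
        ← Nat.cast_smul_eq_nsmul ℝ, smul_smul, hcard]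
    rwa [e1] at h1
  -- contraction
  have hcon : ∀ e : V n, ∀ r : ℝ, 0 ≤ r →
      r • (κ • fS w {i1}ᶜ + (1 / 800 : ℝ) • ∑ j, w j) + e ∈ closure C →
      (r / 100) • f + H e ∈ closure C := by
    intro e r hr h1
    rw [← hh, ← hf] at h1
    have h3 := hHc _ h1
    rw [map_add, map_smul, map_add, map_smul, map_smul] at h3
    have h4 := hc.cl_smul B5 (t := r * κ) (by positivity)
    have h5 := hc.cl_smul B3 (t := r * (1 / 800)) (by positivity)
    have h6 : (r * (1 / 100 - 3 * (κ * k * ε₀) - 2 / 800)) • f ∈ closure C :=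
      hc.cl_smul hfc (mul_nonneg hr (by linarith))
    have := hc.cl_add (hc.cl_add (hc.cl_add h3 h4) h5) h6
    have e2 : r • (κ • H h + (1 / 800 : ℝ) • H f) + H e +
        (r * κ) • ((k * (3 * ε₀)) • f - H h) + (r * (1 / 800)) • ((2 : ℝ) • f - H f) +
        (r * (1 / 100 - 3 * (κ * k * ε₀) - 2 / 800)) • f = (r / 100) • f + H e := by
      module
    rwa [e2] at this
  have hφf : φ f = 1 := by
    rw [hf, map_sum, Finset.sum_eq_single i1]
    · exact hφ.one
    · intro j _ hj; exact hφ.zero j hj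
    · intro h; exact absurd (Finset.mem_univ i1) h
  have hnear : (2 * ε₀) • f - (H (w i1) - w i1) ∈ closure C ∧
      (2 * ε₀) • f + (H (w i1) - w i1) ∈ closure C := by
    obtain ⟨h1, h2⟩ := hnr i1 hi1
    have h3 := hHc _ h1
    have h4 := hHc _ h2
    rw [map_sub, map_sub, map_smul, hHz1] at h3
    rw [map_add, map_sub, map_smul, hHz1] at h4
    have h5 := hc.cl_smul B3' hε0.le
    constructor
    · have := hc.cl_add h4 h5
      have e : ε₀ • H f' + (w i1 - H (w i1)) + ε₀ • ((2 : ℝ) • f - H f') =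
          (2 * ε₀) • f - (H (w i1) - w i1) := by module
      rwa [e] at this
    · have := hc.cl_add h3 h5
      have e : ε₀ • H f' - (w i1 - H (w i1)) + ε₀ • ((2 : ℝ) • f - H f') =
          (2 * ε₀) • f + (H (w i1) - w i1) := by module
      rwa [e] at this
  obtain ⟨b, lam', ψ, hAtr, hφb, hl1, hl2, hψ, -, -⟩ := atd n C hc ⊤ f (w i1) φ H
    (2 * ε₀) (by linarith) (by linarith) Submodule.mem_top hfc Submodule.mem_top (hwc i1)
    (hwf i1) hφ.pos hφ.one hφf (fun x _ => Submodule.mem_top) hHc hnear.1 hnear.2 (by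
      intro u _
      obtain ⟨M, hM, h1, h2⟩ := absorb_two hc hfC u
      exact ⟨M, hM.le, subset_closure h1, subset_closure h2⟩) (by
      intro e _ r hr hφe h1 h2
      rw [hf] at h1 h2
      obtain ⟨h5, h6⟩ := hU w hw i1 φ hφ e r hφe hr h1 h2
      constructor
      · have := hcon (-e) r hr (by rw [← sub_eq_add_neg]; exact h5)
        rwa [map_neg, ← sub_eq_add_neg] at this
      · exact hcon e r hr h6)
  have hl0 : 0 < lam' := by linarith
  have hψ0 : 0 < ψ (w i1) := by linarith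
  have hsA : sA s⁻¹ g⁻¹ = E⁻¹ • H := by
    apply LinearMap.ext
    intro x
    rw [LinearMap.smul_apply, hHx, sA_apply, smul_smul]
    congr 1
    field_simp
  have hAtr' : Atr C ⊤ (sA s⁻¹ g⁻¹) (E / lam')⁻¹ b ψ := by
    rw [hsA]
    have h1 := (atf n C hc ⊤ H lam' b ψ hAtr).2.2.2.2.2 E⁻¹ (inv_pos.mpr hE0)
    have h2 : (E / lam')⁻¹ = E⁻¹ * lam' := by
      rw [inv_div, div_eq_mul_inv, mul_comm]
    rw [h2]
    exact h1
  -- b is in the invariant face
  have hwB : w i1 ∈ BI C w {0}ᶜ := by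
    refine fce hc hwc (M := 1) ?_ ?_
    · rw [one_smul]
      have e1 : fS w ({0}ᶜ : Finset (Fin (k + 1))) - w i1 =
          ∑ j ∈ ({0}ᶜ : Finset (Fin (k + 1))).erase i1, w j := by
        rw [fS, ← Finset.add_sum_erase _ w hi1m]; abel
      rw [e1]; exact hc.cl_sum fun i _ => hwc i
    · rw [one_smul, ← hf']
      exact hc.cl_add hf'c (hwc i1)
  have hlim := hAtr.lim (w i1) Submodule.mem_top
  have hHmB : ∀ m : ℕ, (H ^ m) (w i1) ∈ BI C w {0}ᶜ := by
    intro m
    induction m with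
    | zero => rw [pow_zero]; exact hwB
    | succ m ih => rw [pow_succ', Module.End.mul_apply]; exact hHB _ ih
  have hψb : ψ (w i1) • b ∈ BI C w {0}ᶜ :=
    (Submodule.closed_of_finiteDimensional (BI C w {0}ᶜ)).mem_of_tendsto hlim
      (Eventually.of_forall fun m => Submodule.smul_mem _ _ (hHmB m))
  have hb1 : b = (ψ (w i1))⁻¹ • (ψ (w i1) • b) := by
    rw [smul_smul, inv_mul_cancel₀ hψ0.ne', one_smul]
  have hbB : b ∈ BI C w {0}ᶜ := by
    rw [hb1]
    exact Submodule.smul_mem _ _ hψb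
  have hb0 : b ≠ 0 := by
    intro h0
    rw [h0, map_zero] at hφb
    exact zero_ne_one hφb
  have hf'n : f' ∉ C := by
    have h1 := hw.1.bd (fun j => if j = 0 then 0 else 1) (fun j => by split_ifs <;> norm_num)
      ⟨0, by simp⟩
    have h2 : ∑ j, (if j = 0 then (0 : ℝ) else 1) • w j = f' := by
      rw [sum_eq (fun j => (if j = 0 then (0 : ℝ) else 1) • w j) 0]
      simp only [if_true, zero_smul, zero_add]
      rw [hf']
      refine Finset.sum_congr rfl fun j hj => ?_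
      show (if j = 0 then (0 : ℝ) else 1) • w j = w j
      rw [if_neg (hne 0 j hj), one_smul]
    rwa [h2] at h1
  have hbn : ψ (w i1) • b ∉ C := by
    intro hbC
    have hU' : Unt C (BI C w {0}ᶜ) (fS w ({0}ᶜ : Finset (Fin (k + 1)))) :=
      (fcs n C hc _ (by rw [← hf']; exact hf'c)).1
    obtain ⟨M, hM, h1⟩ := hU'.2.2 _ hψb
    have h2 := hc.mem_of_le hbC h1
    rw [← hf', hc.smul_iff hM] at h2
    exact hf'n h2
  have hLam : ψ (w i1) • b ∈ LamC C Γ := by
    refine Pool.Agent.PFS.H37.cloF n C Γ hcc _ _ (fun m => ?_) hlim hbn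
      (smul_ne_zero hψ0.ne' hb0)
    rw [hHpow]
    refine hcc.hul.smul _ (hcc.hul.smul _ (hcc.hul.act _ (hcc.hul.lamHull _ (hw.2 i1)) _
      (Γ.pow_mem (Γ.inv_mem hFG.gm) m)) _ (by positivity)) _ (by positivity)
  have hbL : b ∈ LamC C Γ := by
    rw [hb1]
    exact hcc.hul.lamSmul _ hLam _ (inv_pos.mpr hψ0)
  refine ⟨b, E / lam', ψ, hAtr', ?_, ?_, hψ0, hbL, hbB⟩
  · rw [← hE, div_le_div_iff₀ (by norm_num) hl0]
    nlinarith
  · rw [← hE, div_le_iff₀ hl0]
    nlinarith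

end Pool.Agent.VMX.H64
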